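import Pool.Agent.Y588.EB.Eff

/-!
# Effective Birkhoff theorem for computable maps and the class of all invariant measures

`LscBirkhoff` (starting file) shows that the averages of a lower semicomputable real function along
the orbit of the shift of the Cantor space exist at all points which are random for an invariant
measure. Here the shift is replaced by an arbitrary computable map of the space of sequences over a
countable alphabet, the functions may take the value `+∞`, and the points are only required to be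
random with respect to the class of all invariant measures: the exceptional points do not depend on
the measure.
-/

set_option autoImplicit false

namespace Pool.Agent.Results.MP_05754a_lc.ComputableMaps

open MeasureTheory Filter Topology
open scoped ENNReal

variable {α : Type}

/-- The cylinder `[x]`: sequences whose first `|x|` terms are the string `x`. -/
def Cyl (x : List α) : Set (ℕ → α) := {ω | (List.range x.length).map ω = x}

/-- A family of sets `U i` is uniformly effectively open: there is a computably enumerable set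
of pairs `(i, x)` such that each `U i` is the union of the cylinders `[x]` with `(i, x)`
enumerated. -/
def UnifEffOpen [Primcodable α] {ι : Type} [Primcodable ι] (U : ι → Set (ℕ → α)) : Prop :=
  ∃ E : ι × List α → Prop, REPred E ∧ ∀ i, U i = ⋃ x ∈ {x | E (i, x)}, Cyl x

/-- The map `T` of the space of sequences is computable: the preimages of the cylinders are
effectively open, uniformly in the cylinder. -/
def ComputableMap [Primcodable α] (T : (ℕ → α) → (ℕ → α)) : Prop :=
  UnifEffOpen fun u : List α => T ⁻¹' Cyl u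

/-- `ω` is Martin-Löf random for `P`: it is outside the intersection of every decreasing
uniformly effectively open sequence `U m` with `P (U m) ≤ 2 ^ (-m)`. -/
def MLRandom [Primcodable α] [MeasurableSpace α] (P : Measure (ℕ → α)) (ω : ℕ → α) : Prop :=
  ∀ U : ℕ → Set (ℕ → α), UnifEffOpen U → Antitone U → (∀ m, P (U m) ≤ (2⁻¹ : ℝ≥0∞) ^ m) →
    ω ∉ ⋂ m, U m

/-- `ω` is random with respect to the class of all `T`-invariant probability measures: it is
outside the intersection of every decreasing uniformly effectively open sequence `U m` such that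
`P (U m) ≤ 2 ^ (-m)` for **all** `T`-invariant probability measures `P` simultaneously. -/
def ClassRandom [Primcodable α] [MeasurableSpace α] (T : (ℕ → α) → (ℕ → α)) (ω : ℕ → α) : Prop :=
  ∀ U : ℕ → Set (ℕ → α), UnifEffOpen U → Antitone U →
    (∀ P : Measure (ℕ → α), IsProbabilityMeasure P → MeasurePreserving T P P →
      ∀ m, P (U m) ≤ (2⁻¹ : ℝ≥0∞) ^ m) →
    ω ∉ ⋂ m, U m

/-- The rational number `(a - b) / (c + 1)` coded by a triple of naturals. -/
noncomputable def rat (q : ℕ × ℕ × ℕ) : ℝ := ((q.1 : ℝ) - q.2.1) / (q.2.2 + 1)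

/-- `f` (with values in the extended reals) is lower semicomputable: the sets `{f > q}`,
`q` rational, are effectively open uniformly in (codes of) `q`. -/
def LowerSemicomputable [Primcodable α] (f : (ℕ → α) → EReal) : Prop :=
  UnifEffOpen fun q : ℕ × ℕ × ℕ => {ω | ((rat q : ℝ) : EReal) < f ω}

/-- The average of `f` along the orbit of `ω` exists in `(-∞, +∞]`. -/
def AverageExists (T : (ℕ → α) → (ℕ → α)) (f : (ℕ → α) → EReal) (ω : ℕ → α) : Prop :=
  ∃ L : EReal, L ≠ ⊥ ∧
    Tendsto (fun n : ℕ => (∑ k ∈ Finset.range n, f (T^[k] ω)) / (n : EReal)) atTop (𝓝 L)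

/-- The left shift. -/
def shift (ω : ℕ → α) : ℕ → α := fun n => ω (n + 1)

open Pool.Agent.Y588.EB
open Pool.Agent.Helper396 (SS SS_nice WitAll WitAll_anti wit_of_frequently measure_WitAll
  code_of_re ev_mono ev vv gg NB Final nat_main real_main a_le_b re_of_exists c_mul c_add)

theorem mem_Cyl {x : List α} {ω : ℕ → α} : ω ∈ Cyl x ↔ pre ω x.length = x := Iff.rfl

theorem pre_mem (ω : ℕ → α) (n : ℕ) : ω ∈ Cyl (pre ω n) := by
  rw [mem_Cyl, pre_length]

/-- computable maps are described by codes -/
theorem exists_desc [Primcodable α] {T : (ℕ → α) → (ℕ → α)} (hT : ComputableMap T) :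
    ∃ cT : Nat.Partrec.Code, Desc cT T := by
  obtain ⟨E, hE, hEU⟩ := hT
  obtain ⟨c, hc⟩ := code_of_re hE
  refine ⟨c, fun v y => ?_⟩
  have h := Set.ext_iff.1 (hEU v) y
  simp only [Set.mem_preimage, Set.mem_iUnion, Set.mem_ofPred_eq, exists_prop] at h
  rw [mem_Cyl] at h
  rw [h]
  refine exists_congr fun u => ?_
  rw [hc, mem_Cyl]

/-- the oscillation of the approximating families is excluded outside of one effectively null
sequence, for all invariant measures -/
theorem no_osc [Primcodable α] [Inhabited α] [MeasurableSpace α] [MeasurableSingletonClass α]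
    {T : (ℕ → α) → (ℕ → α)} (hT : ComputableMap T) (c : Nat.Partrec.Code) (n0 : ℕ) :
    ∃ U : ℕ → Set (ℕ → α), UnifEffOpen U ∧ Antitone U ∧
      (∀ P : Measure (ℕ → α), IsProbabilityMeasure P → MeasurePreserving T P P →
        ∀ m, P (U m) ≤ (2⁻¹ : ℝ≥0∞) ^ m) ∧
      ∀ ω, ω ∉ ⋂ m, U m → ∀ D M c' a : ℕ,
        ¬ ((∃ᶠ m in atTop,
            SS T (fun s y => c' * GG c (n0 * (D + 1)) D T M s y) ω m m ≤ a * m) ∧
          (∃ᶠ n in atTop, ∃ r,
            (a + 2) * n ≤ SS T (fun s y => c' * GG c (n0 * (D + 1)) D T M s y) ω n r)) := by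
  obtain ⟨cT, hcT⟩ := exists_desc hT
  set G : ℕ → ℕ → ℕ → ℕ → (ℕ → α) → ℕ := fun D M c' s y =>
    c' * GG c (n0 * (D + 1)) D T M s y with hG
  have hmono : ∀ D M c' y, Monotone fun s => G D M c' s y := fun D M c' y s s' h =>
    Nat.mul_le_mul_left _ (GG_mono c _ D T M y h)
  have hB : ∀ D M c' s y, G D M c' s y ≤ c' * M := fun D M c' s y =>
    Nat.mul_le_mul_left _ (GG_le c _ D T M s y)
  -- the sets
  set W : ℕ → ℕ → Set (ℕ → α) := fun m j =>
    WitAll T (G j.unpair.1 j.unpair.2.unpair.1 j.unpair.2.unpair.2.unpair.1)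
      j.unpair.2.unpair.2.unpair.2 (j.unpair.2.unpair.2.unpair.1 * j.unpair.2.unpair.1)
      ((j.unpair.2.unpair.2.unpair.2 + 2) * 2 ^ (m + (j + 1))) with hW
  have hpow2 : Computable (fun m : ℕ => 2 ^ m) := by
    have h3 : Primrec (fun m : ℕ => 2 ^ m) := by
      refine (Primrec.nat_rec₁ 1 ((Primrec.nat_mul.comp (Primrec.const 2)
        (Primrec.snd)).to₂ : Primrec₂ fun (_ : ℕ) (y : ℕ) => 2 * y)).of_eq fun m => ?_
      induction m with
      | zero => rfl
      | succ m ih => rw [pow_succ, ← ih]; simp only; ring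
    exact h3.to_comp
  have cU : Computable (fun j : ℕ => j.unpair) := Primrec.unpair.to_comp
  have c1 : Computable (fun j : ℕ => j.unpair.1) := Computable.fst.comp cU
  have c2 : Computable (fun j : ℕ => j.unpair.2) := Computable.snd.comp cU
  have hj : Computable (fun i : ℕ × ℕ => i.2) := Computable.snd
  have hDc : Computable (fun i : ℕ × ℕ => i.2.unpair.1) := c1.comp hj
  have hMc : Computable (fun i : ℕ × ℕ => i.2.unpair.2.unpair.1) := c1.comp (c2.comp hj)
  have hcc : Computable (fun i : ℕ × ℕ => i.2.unpair.2.unpair.2.unpair.1) :=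
    c1.comp (c2.comp (c2.comp hj))
  have hac : Computable (fun i : ℕ × ℕ => i.2.unpair.2.unpair.2.unpair.2) :=
    c2.comp (c2.comp (c2.comp hj))
  have hAc : Computable (fun i : ℕ × ℕ => n0 * (i.2.unpair.1 + 1)) :=
    c_mul.comp (Computable.const n0) (Computable.succ.comp hDc)
  have hNc : Computable (fun i : ℕ × ℕ =>
      (i.2.unpair.2.unpair.2.unpair.2 + 2) * 2 ^ (i.1 + (i.2 + 1))) :=
    c_mul.comp (c_add.comp hac (Computable.const 2))
      (hpow2.comp (c_add.comp Computable.fst (Computable.succ.comp hj)))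
  obtain ⟨tst, htst, hspec⟩ := exists_test (c := c) hcT hAc hDc hMc hcc hac hNc
  refine ⟨fun m => ⋃ j, W m j, ?_, ?_, ?_, ?_⟩
  · refine ⟨fun p => ∃ k : ℕ, tst ((p.1, k.unpair.1), p.2) k.unpair.2 = true, ?_, fun m => ?_⟩
    · refine re_of_exists (fun (p : ℕ × List α) (k : ℕ) => tst ((p.1, k.unpair.1), p.2) k.unpair.2) ?_
      exact htst.comp (((Computable.fst.comp Computable.fst).pair
        (c1.comp Computable.snd)).pair (Computable.snd.comp Computable.fst))
        (c2.comp Computable.snd)
    · ext y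
      simp only [Set.mem_iUnion, Set.mem_ofPred_eq, mem_Cyl, exists_prop]
      constructor
      · rintro ⟨j, hj⟩
        obtain ⟨x, ⟨n, hn⟩, hx⟩ := (hspec (m, j) y).1 hj
        refine ⟨x, ⟨Nat.pair j n, ?_⟩, hx⟩
        rw [Nat.unpair_pair]
        exact hn
      · rintro ⟨x, ⟨k, hk⟩, hx⟩
        exact ⟨k.unpair.1, (hspec (m, k.unpair.1) y).2 ⟨x, ⟨k.unpair.2, hk⟩, hx⟩⟩
  · intro m m' hm
    refine Set.iUnion_mono fun j => ?_
    exact WitAll_anti T _ _ _ (Nat.mul_le_mul_left _
      (Nat.pow_le_pow_right (by norm_num) (by omega)))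
  · intro P _ hP m
    have hmeas : ∀ j, P (W m j) ≤ (2⁻¹ : ℝ≥0∞) ^ (m + (j + 1)) := by
      intro j
      set a := j.unpair.2.unpair.2.unpair.2 with ha
      have h3 := measure_WitAll P (T := T) hP
        (G := G j.unpair.1 j.unpair.2.unpair.1 j.unpair.2.unpair.2.unpair.1)
        (fun s => (meas_GG c _ _ hP.measurable _ s).const_mul _) (hmono _ _ _) (hB _ _ _) a
        ((a + 2) * 2 ^ (m + (j + 1)))
      have h4 : ((a : ℝ≥0∞) + 2) * (2 ^ (m + (j + 1)) * P (W m j)) ≤ ((a : ℝ≥0∞) + 2) * 1 := by
        rw [mul_one, ← mul_assoc]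
        refine le_trans (le_of_eq ?_) h3
        push_cast
        rfl
      have h5 : (2 : ℝ≥0∞) ^ (m + (j + 1)) * P (W m j) ≤ 1 := by
        refine (ENNReal.mul_le_mul_iff_right ?_ ?_).1 h4
        · simp
        · exact ENNReal.add_ne_top.2 ⟨ENNReal.natCast_ne_top a, by norm_num⟩
      rw [ENNReal.inv_pow.symm]
      rw [ENNReal.le_inv_iff_mul_le, mul_comm]
      exact h5
    calc P (⋃ j, W m j) ≤ ∑' j, P (W m j) := measure_iUnion_le _
      _ ≤ ∑' j : ℕ, (2⁻¹ : ℝ≥0∞) ^ (m + (j + 1)) := ENNReal.tsum_le_tsum hmeas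
      _ = (2⁻¹ : ℝ≥0∞) ^ m := by
        simp only [pow_add (2⁻¹ : ℝ≥0∞) m]
        rw [ENNReal.tsum_mul_left, ENNReal.tsum_geometric_add_one, ENNReal.one_sub_inv_two,
          inv_inv, ENNReal.inv_mul_cancel (by norm_num) (by norm_num), mul_one]
  · intro ω hω D M c' a
    rintro ⟨h1, h2⟩
    rw [Set.mem_iInter, not_forall] at hω
    obtain ⟨m, hm⟩ := hω
    apply hm
    rw [Set.mem_iUnion]
    refine ⟨Nat.pair D (Nat.pair M (Nat.pair c' a)), ?_⟩
    simp only [hW, Nat.unpair_pair]
    exact wit_of_frequently (SS_nice T (G D M c') (hmono D M c') (c' * M) (hB D M c') ω) h1 h2 _ 0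

/-- the averages exist if the values along the orbit are real -/
theorem core [Primcodable α] [Inhabited α] [MeasurableSpace α] [MeasurableSingletonClass α]
    {T : (ℕ → α) → (ℕ → α)} (hT : ComputableMap T) {f : (ℕ → α) → EReal}
    (hf : LowerSemicomputable f) (n0 : ℕ) :
    ∃ U : ℕ → Set (ℕ → α), UnifEffOpen U ∧ Antitone U ∧
      (∀ P : Measure (ℕ → α), IsProbabilityMeasure P → MeasurePreserving T P P →
        ∀ m, P (U m) ≤ (2⁻¹ : ℝ≥0∞) ^ m) ∧
      ∀ ω, ω ∉ ⋂ m, U m → ∀ x : ℕ → ℝ, (∀ k, f (T^[k] ω) = (x k : EReal)) →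
        (∀ k, -(n0 : ℝ) < x k) →
        (∃ L : ℝ, Tendsto (fun n : ℕ => (∑ k ∈ Finset.range n, x k) / n) atTop (𝓝 L)) ∨
          Tendsto (fun n : ℕ => (∑ k ∈ Finset.range n, x k) / n) atTop atTop := by
  obtain ⟨E, hE, hEf⟩ := hf
  obtain ⟨c, hc⟩ := code_of_re hE
  obtain ⟨U, hU, hanti, hmeas, hosc⟩ := no_osc hT c n0
  refine ⟨U, hU, hanti, hmeas, fun ω hω x hx hn0 => ?_⟩
  -- levels
  have hlev : ∀ (D j i : ℕ),
      (∃ m, acc c (n0 * (D + 1)) D m j (T^[i] ω) = true) ↔
        (j : ℝ) < ((D : ℝ) + 1) * (x i + n0) := by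
    intro D j i
    have hD : (0 : ℝ) < (D : ℝ) + 1 := by positivity
    have e1 : (j : ℝ) < ((D : ℝ) + 1) * (x i + n0) ↔ rat (j, n0 * (D + 1), D) < x i := by
      unfold rat
      rw [div_lt_iff₀ hD]
      push_cast
      constructor <;> intro h <;> nlinarith
    have e2 : rat (j, n0 * (D + 1), D) < x i ↔
        ∃ u, E ((j, n0 * (D + 1), D), u) ∧ T^[i] ω ∈ Cyl u := by
      have := Set.ext_iff.1 (hEf (j, n0 * (D + 1), D)) (T^[i] ω)
      simp only [Set.mem_ofPred_eq, Set.mem_iUnion, exists_prop, hx i,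
        EReal.coe_lt_coe_iff] at this
      exact this
    rw [e1, e2]
    constructor
    · rintro ⟨m, hm⟩
      unfold acc at hm
      rw [List.any_eq_true] at hm
      obtain ⟨l, _, hl⟩ := hm
      exact ⟨pre (T^[i] ω) l, (hc _).2 ⟨m, hl⟩, pre_mem (T^[i] ω) l⟩
    · rintro ⟨u, hu, hy⟩
      obtain ⟨k, hk⟩ := (hc _).1 hu
      refine ⟨max k u.length, ?_⟩
      unfold acc
      rw [List.any_eq_true]
      refine ⟨u.length, List.mem_range.2 (by omega), ?_⟩
      rw [mem_Cyl.1 hy]
      exact ev_mono (le_max_left _ _) hk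
  -- the level function
  set lev : ℕ → ℕ → ℕ := fun D i => ⌈((D : ℝ) + 1) * (x i + n0)⌉₊ - 1 with hlevdef
  have hlt : ∀ (D j i : ℕ),
      j < lev D i ↔ ((j + 1 : ℕ) : ℝ) < ((D : ℝ) + 1) * (x i + n0) := by
    intro D j i
    rw [← Nat.lt_ceil]
    simp only [hlevdef]
    omega
  have hFle : ∀ (D m i : ℕ), FF c (n0 * (D + 1)) D m (T^[i] ω) ≤ lev D i := by
    intro D m i
    unfold FF
    calc ∑ j ∈ Finset.range m, (if acc c (n0 * (D + 1)) D m (j + 1) (T^[i] ω) = true then 1 else 0)
        ≤ ∑ j ∈ Finset.range m, (if j < lev D i then 1 else 0) := by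
          refine Finset.sum_le_sum fun j _ => ?_
          by_cases h : acc c (n0 * (D + 1)) D m (j + 1) (T^[i] ω) = true
          · rw [if_pos h, if_pos ((hlt D j i).2 ((hlev D (j + 1) i).1 ⟨m, h⟩))]
          · rw [if_neg h]; exact Nat.zero_le _
      _ ≤ lev D i := by
          rw [Finset.sum_boole]
          have : (Finset.range m).filter (fun j => j < lev D i) ⊆ Finset.range (lev D i) := by
            intro j hj
            rw [Finset.mem_filter] at hj
            exact Finset.mem_range.2 hj.2
          have := Finset.card_le_card this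
          rw [Finset.card_range] at this
          exact_mod_cast this
  have hFeq : ∀ (D i : ℕ), ∃ m, FF c (n0 * (D + 1)) D m (T^[i] ω) = lev D i := by
    intro D i
    have h1 : ∀ j, ∃ m, j < lev D i → acc c (n0 * (D + 1)) D m (j + 1) (T^[i] ω) = true := by
      intro j
      by_cases hj : j < lev D i
      · obtain ⟨m, hm⟩ := (hlev D (j + 1) i).2 ((hlt D j i).1 hj)
        exact ⟨m, fun _ => hm⟩
      · exact ⟨0, fun h => absurd h hj⟩
    choose st hst using h1
    refine ⟨max (lev D i) ((Finset.range (lev D i)).sup st), le_antisymm (hFle _ _ _) ?_⟩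
    set m := max (lev D i) ((Finset.range (lev D i)).sup st) with hm
    unfold FF
    calc lev D i = ∑ j ∈ Finset.range (lev D i), 1 := by simp
      _ ≤ ∑ j ∈ Finset.range (lev D i),
            (if acc c (n0 * (D + 1)) D m (j + 1) (T^[i] ω) = true then 1 else 0) := by
          refine Finset.sum_le_sum fun j hj => ?_
          have h2 : st j ≤ m := (Finset.le_sup (f := st) hj).trans (le_max_right _ _)
          rw [if_pos (acc_mono c _ _ h2 (hst j (Finset.mem_range.1 hj)))]
      _ ≤ _ := Finset.sum_le_sum_of_subset (Finset.range_mono (le_max_left _ _))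
  -- averages of the levels
  have hNB : ∀ D M : ℕ, NB (gg M fun s i => FF c (n0 * (D + 1)) D s (T^[i] ω)) := by
    intro D M c' a
    rintro ⟨h1, h2⟩
    have hSS : ∀ w s, SS T (fun s y => c' * GG c (n0 * (D + 1)) D T M s y) ω w s
        = c' * ∑ i ∈ Finset.range w,
            gg M (fun s i => FF c (n0 * (D + 1)) D s (T^[i] ω)) s i := by
      intro w s
      unfold SS
      rw [Finset.mul_sum]
      refine Finset.sum_congr rfl fun i _ => ?_
      simp only
      rw [GG_iter]
    refine hosc ω hω D M c' a ⟨?_, ?_⟩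
    · refine h1.mono fun n hn => ?_
      rw [hSS]; exact hn
    · refine h2.mono fun n hn => ?_
      obtain ⟨s, hs⟩ := hn
      exact ⟨s, by rw [hSS]; exact hs⟩
  have hconv : ∀ D : ℕ,
      (∃ H : ℝ, Tendsto (fun n : ℕ =>
        (∑ i ∈ Finset.range n, (lev D i : ℝ)) / n) atTop (𝓝 H)) ∨
      Tendsto (fun n : ℕ => (∑ i ∈ Finset.range n, (lev D i : ℝ)) / n) atTop atTop := by
    intro D
    have hmono : ∀ i, Monotone fun s => FF c (n0 * (D + 1)) D s (T^[i] ω) :=
      fun i => FF_mono c _ _ _
    have hfin : Final (fun s i => FF c (n0 * (D + 1)) D s (T^[i] ω)) (fun i => lev D i) :=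
      ⟨fun s i => hFle D s _, fun n => a_le_b hmono (fun i => hFeq D _) (fun s i => hFle D s _) n⟩
    exact nat_main hmono hfin (hNB D)
  have hclose : ∀ D i : ℕ, |((D : ℝ) + 1) * (x i + n0) - (lev D i : ℝ)| ≤ 1 := by
    intro D i
    set z : ℝ := ((D : ℝ) + 1) * (x i + n0) with hz
    have hz0 : 0 < z := by
      have := hn0 i
      have hD : (0 : ℝ) < (D : ℝ) + 1 := by positivity
      exact mul_pos hD (by linarith)
    have h1 : 0 < ⌈z⌉₊ := Nat.ceil_pos.2 hz0
    have h2 : ((lev D i : ℕ) : ℝ) = (⌈z⌉₊ : ℝ) - 1 := by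
      simp only [hlevdef]
      rw [← hz, Nat.cast_sub (by omega)]
      simp
    have h3 := Nat.le_ceil z
    have h4 := Nat.ceil_lt_add_one hz0.le
    rw [h2, abs_le]
    constructor <;> linarith
  exact real_main (x := x) (n0 := n0) (b := lev) hclose hconv

/-- extended real sums -/
theorem sum_ne_bot {g : ℕ → EReal} (hg : ∀ k, g k ≠ ⊥) (n : ℕ) :
    ∑ k ∈ Finset.range n, g k ≠ ⊥ := by
  induction n with
  | zero => simp
  | succ n ih =>
    rw [Finset.sum_range_succ]
    intro h
    rcases EReal.add_eq_bot_iff.1 h with h | h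
    · exact ih h
    · exact hg n h

theorem sum_eq_top {g : ℕ → EReal} (hg : ∀ k, g k ≠ ⊥) {k : ℕ} (hk : g k = ⊤) (n : ℕ)
    (hn : k < n) : ∑ k ∈ Finset.range n, g k = ⊤ := by
  induction n with
  | zero => exact absurd hn (Nat.not_lt_zero _)
  | succ n ih =>
    rw [Finset.sum_range_succ]
    rcases Nat.lt_or_ge k n with h | h
    · rw [ih h, EReal.top_add_of_ne_bot (hg n)]
    · obtain rfl : k = n := by omega
      rw [hk, EReal.add_top_of_ne_bot (sum_ne_bot hg k)]

theorem coe_sum (x : ℕ → ℝ) (n : ℕ) :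
    ∑ k ∈ Finset.range n, (x k : EReal) = ((∑ k ∈ Finset.range n, x k : ℝ) : EReal) := by
  induction n with
  | zero => simp
  | succ n ih => rw [Finset.sum_range_succ, Finset.sum_range_succ, ih, EReal.coe_add]

/-- the averages exist outside of one effectively null sequence -/
def Good [Primcodable α] [MeasurableSpace α] (T : (ℕ → α) → (ℕ → α)) (f : (ℕ → α) → EReal) :
    Prop :=
  ∃ U : ℕ → Set (ℕ → α), UnifEffOpen U ∧ Antitone U ∧
    (∀ P : Measure (ℕ → α), IsProbabilityMeasure P → MeasurePreserving T P P →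
      ∀ m, P (U m) ≤ (2⁻¹ : ℝ≥0∞) ^ m) ∧
    ∀ ω, ω ∉ ⋂ m, U m → AverageExists T f ω

/-- the general theorem, for functions which are bounded below -/
theorem general [Primcodable α] [Inhabited α] [MeasurableSpace α] [MeasurableSingletonClass α]
    {T : (ℕ → α) → (ℕ → α)} (hT : ComputableMap T) {f : (ℕ → α) → EReal}
    (hf : LowerSemicomputable f) {b : ℝ} (hb : ∀ ω, (b : EReal) ≤ f ω) : Good T f := by
  obtain ⟨n0, hn0⟩ := exists_nat_gt (-b)
  obtain ⟨U, hU, hanti, hmeas, hgood⟩ := core hT hf n0
  refine ⟨U, hU, hanti, hmeas, fun ω hω => ?_⟩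
  have hbot : ∀ k, f (T^[k] ω) ≠ ⊥ := fun k h => by
    have := hb (T^[k] ω)
    rw [h, le_bot_iff] at this
    exact EReal.coe_ne_bot b this
  by_cases htop : ∃ k, f (T^[k] ω) = ⊤
  · obtain ⟨k, hk⟩ := htop
    refine ⟨⊤, by simp, ?_⟩
    refine tendsto_const_nhds.congr' ?_
    filter_upwards [eventually_gt_atTop k] with n hn
    rw [sum_eq_top hbot hk n hn, EReal.top_div_of_pos_ne_top]
    · exact_mod_cast (by omega : 0 < n)
    · exact EReal.natCast_ne_top n
  · have hx : ∀ k, f (T^[k] ω) = ((f (T^[k] ω)).toReal : EReal) := fun k =>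
      (EReal.coe_toReal (fun h => htop ⟨k, h⟩) (hbot k)).symm
    have h1 : ∀ k, -(n0 : ℝ) < (f (T^[k] ω)).toReal := by
      intro k
      have := hb (T^[k] ω)
      rw [hx k, EReal.coe_le_coe_iff] at this
      linarith
    have e : ∀ n : ℕ, (∑ k ∈ Finset.range n, f (T^[k] ω)) / (n : EReal) =
        (((∑ k ∈ Finset.range n, (f (T^[k] ω)).toReal) / n : ℝ) : EReal) := by
      intro n
      rw [Finset.sum_congr rfl fun k _ => hx k, coe_sum, EReal.coe_div]
      rfl
    rcases hgood ω hω _ hx h1 with ⟨L, hL⟩ | hL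
    · refine ⟨(L : EReal), EReal.coe_ne_bot L, ?_⟩
      simp only [e]
      exact EReal.tendsto_coe.2 hL
    · refine ⟨⊤, by simp, ?_⟩
      simp only [e]
      exact EReal.tendsto_coe_nhds_top_iff.2 hL

theorem isOpen_Cyl [TopologicalSpace α] [DiscreteTopology α] [Inhabited α] (x : List α) :
    IsOpen (Cyl x) := by
  have : Cyl x = ⋂ i ∈ Finset.range x.length,
      (fun ω : ℕ → α => ω i) ⁻¹' {x.getD i default} := by
    ext ω
    simp only [Set.mem_iInter, Set.mem_preimage, Set.mem_singleton_iff, Finset.mem_range]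
    constructor
    · intro h i hi
      exact (ext_of_cyl (mem_Cyl.1 h) hi).symm
    · intro h
      rw [mem_Cyl]
      apply List.ext_getElem
      · rw [pre_length]
      · intro i h1 h2
        have := h i h2
        simp [pre, this, h2]
  rw [this]
  exact isOpen_biInter_finset fun i _ => (isOpen_discrete _).preimage (continuous_apply i)

/-- for finite alphabets the functions are bounded below -/
theorem bddBelow [Primcodable α] [Inhabited α] [Finite α] {f : (ℕ → α) → EReal}
    (hf : LowerSemicomputable f) (hbot : ∀ ω, f ω ≠ ⊥) : ∃ b : ℝ, ∀ ω, (b : EReal) ≤ f ω := by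
  letI : TopologicalSpace α := ⊥
  haveI : DiscreteTopology α := ⟨rfl⟩
  have hopen : ∀ n : ℕ, IsOpen {ω : ℕ → α | ((-(n : ℝ) : ℝ) : EReal) < f ω} := by
    intro n
    obtain ⟨E, _, hE⟩ := hf
    have h1 : {ω : ℕ → α | ((-(n : ℝ) : ℝ) : EReal) < f ω} =
        {ω | ((rat (0, n, 0) : ℝ) : EReal) < f ω} := by
      simp [rat]
    have h2 : {ω : ℕ → α | ((rat (0, n, 0) : ℝ) : EReal) < f ω} = _ := hE (0, n, 0)
    rw [h1, h2]
    exact isOpen_biUnion fun x _ => isOpen_Cyl x
  obtain ⟨n, hn⟩ := isCompact_univ.elim_directed_cover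
    (fun n : ℕ => {ω : ℕ → α | ((-(n : ℝ) : ℝ) : EReal) < f ω}) hopen
    (by
      intro ω _
      rw [Set.mem_iUnion]
      rcases eq_or_ne (f ω) ⊤ with h | h
      · exact ⟨0, by show _ < f ω; rw [h]; exact EReal.coe_lt_top _⟩
      · obtain ⟨n, hn⟩ := exists_nat_gt (-(f ω).toReal)
        refine ⟨n, ?_⟩
        show ((-(n : ℝ) : ℝ) : EReal) < f ω
        rw [← EReal.coe_toReal h (hbot ω), EReal.coe_lt_coe_iff]
        linarith)
    (Monotone.directed_le fun m n hmn ω hω => by
      have h1 : (m : ℝ) ≤ n := by exact_mod_cast hmn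
      have hω' : ((-(m : ℝ) : ℝ) : EReal) < f ω := hω
      show ((-(n : ℝ) : ℝ) : EReal) < f ω
      refine lt_of_le_of_lt ?_ hω'
      rw [EReal.coe_le_coe_iff]
      linarith)
  exact ⟨-(n : ℝ), fun ω => (hn (Set.mem_univ ω) : ((-(n : ℝ) : ℝ) : EReal) < f ω).le⟩

/-- the shift is computable -/
theorem computable_shift [Primcodable α] : ComputableMap (shift (α := α)) := by
  classical
  refine ⟨fun p => p.2 ≠ [] ∧ Encodable.encode p.2.tail = Encodable.encode p.1, ?_, fun u => ?_⟩
  · have h1 : Computable (fun p : List α × List α =>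
        (decide (0 < p.2.length) &&
          decide (Encodable.encode p.2.tail = Encodable.encode p.1) : Bool)) :=
      Pool.Agent.Helper396.c_and.comp
        (Pool.Agent.Helper396.c_lt.comp (Computable.const 0)
          (Computable.list_length.comp Computable.snd))
        (Pool.Agent.Helper396.c_eq.comp
          (Computable.encode.comp (Primrec.list_tail.to_comp.comp Computable.snd))
          (Computable.encode.comp Computable.fst))
    have h2 := re_of_exists (fun (p : List α × List α) (_ : ℕ) =>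
        (decide (0 < p.2.length) &&
          decide (Encodable.encode p.2.tail = Encodable.encode p.1) : Bool))
        (h1.comp Computable.fst)
    refine h2.of_eq fun p => ?_
    simp [List.length_pos_iff]
  · ext ω
    simp only [Set.mem_preimage, Set.mem_iUnion, Set.mem_ofPred_eq, exists_prop]
    constructor
    · intro h
      refine ⟨pre ω (u.length + 1), ⟨?_, ?_⟩, pre_mem ω _⟩
      · intro h0
        have := congrArg List.length h0
        rw [pre_length] at this
        simp at this
      · congr 1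
        rw [mem_Cyl] at h
        conv_rhs => rw [← h]
        unfold pre shift
        rw [List.range_succ_eq_map, List.map_cons, List.tail_cons, List.map_map]
        rfl
    · rintro ⟨x, ⟨hx0, hx⟩, hω⟩
      have hx' : x.tail = u := Encodable.encode_injective hx
      obtain ⟨a, x, rfl⟩ := List.exists_cons_of_ne_nil hx0
      rw [List.tail_cons] at hx'
      subst hx'
      rw [mem_Cyl] at hω ⊢
      rw [List.length_cons] at hω
      unfold pre at hω ⊢
      rw [List.range_succ_eq_map, List.map_cons, List.map_map, List.cons.injEq] at hω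
      exact hω.2

/-- **Effective Birkhoff theorem for computable maps and lower semicomputable functions, uniformly
for all invariant measures.**

(1) Let `α` be a finite or infinite alphabet with a computable enumeration, `T` a computable map of
the space of sequences over `α`, and `f` a lower semicomputable function with values in
`(-∞, +∞]`, bounded below if `α` is infinite. There is **one** decreasing uniformly effectively open
sequence `U m` with `P (U m) ≤ 2 ^ (-m)` for **all** `T`-invariant probability measures `P` such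
that the average of `f` along the orbit of `ω` exists for all `ω` outside the intersection of the
`U m`.
(2) Hence the average exists for all `ω` which are random with respect to the class of all
`T`-invariant measures.
(3) For the shift of the Cantor space and real functions this answers the question: the average
exists for each `ω` which is Martin-Löf random for some shift-invariant probability measure. -/
theorem result :
    (∀ (α : Type) [Primcodable α] [MeasurableSpace α] [MeasurableSingletonClass α]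
      (T : (ℕ → α) → (ℕ → α)) (f : (ℕ → α) → EReal), ComputableMap T → LowerSemicomputable f →
      ((Finite α ∧ ∀ ω, f ω ≠ ⊥) ∨ ∃ b : ℝ, ∀ ω, (b : EReal) ≤ f ω) →
      (∃ U : ℕ → Set (ℕ → α), UnifEffOpen U ∧ Antitone U ∧
        (∀ P : Measure (ℕ → α), IsProbabilityMeasure P → MeasurePreserving T P P →
          ∀ m, P (U m) ≤ (2⁻¹ : ℝ≥0∞) ^ m) ∧
        ∀ ω, ω ∉ ⋂ m, U m → AverageExists T f ω) ∧
      ∀ ω, ClassRandom T ω → AverageExists T f ω) ∧
    (∀ (α : Type) [Primcodable α], ComputableMap (shift (α := α))) ∧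
    (∀ (P : Measure (ℕ → Bool)), IsProbabilityMeasure P → MeasurePreserving shift P P →
      ∀ f : (ℕ → Bool) → ℝ, LowerSemicomputable (fun ω => (f ω : EReal)) →
      ∀ ω, MLRandom P ω →
      (∃ L : ℝ, Tendsto (fun n : ℕ => (∑ k ∈ Finset.range n, f (shift^[k] ω)) / n)
        atTop (𝓝 L)) ∨
      Tendsto (fun n : ℕ => (∑ k ∈ Finset.range n, f (shift^[k] ω)) / n) atTop atTop) := by
  have key : ∀ (α : Type) [Primcodable α] [MeasurableSpace α] [MeasurableSingletonClass α]
      (T : (ℕ → α) → (ℕ → α)) (f : (ℕ → α) → EReal), ComputableMap T → LowerSemicomputable f →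
      ((Finite α ∧ ∀ ω, f ω ≠ ⊥) ∨ ∃ b : ℝ, ∀ ω, (b : EReal) ≤ f ω) → Good T f := by
    intro α _ _ _ T f hT hf hb
    by_cases hne : Nonempty α
    · haveI : Inhabited α := ⟨hne.some⟩
      rcases hb with ⟨hfin, hbot⟩ | ⟨b, hb⟩
      · obtain ⟨b, hb⟩ := bddBelow hf hbot
        exact general hT hf hb
      · exact general hT hf hb
    · refine ⟨fun _ => ∅, ⟨fun _ => False, ?_, fun m => by simp⟩, fun _ _ _ => le_rfl,
        fun P _ _ m => by simp, fun ω _ => absurd ⟨ω 0⟩ hne⟩
      have := re_of_exists (fun (_ : ℕ × List α) (_ : ℕ) => false) (Computable.const false).to₂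
      refine this.of_eq fun p => ?_
      simp
  refine ⟨fun α _ _ _ T f hT hf hb => ⟨key α T f hT hf hb, fun ω hω => ?_⟩,
    fun α _ => computable_shift, fun P hP hT f hf ω hω => ?_⟩
  · obtain ⟨U, hU, hanti, hmeas, hgood⟩ := key α T f hT hf hb
    exact hgood ω (hω U hU hanti hmeas)
  · obtain ⟨b, hb⟩ := bddBelow hf fun ω => EReal.coe_ne_bot (f ω)
    obtain ⟨n0, hn0⟩ := exists_nat_gt (-b)
    obtain ⟨U, hU, hanti, hmeas, hgood⟩ := core (computable_shift (α := Bool)) hf n0
    refine hgood ω (hω U hU hanti (hmeas P hP hT)) (fun k => f (shift^[k] ω)) (fun k => rfl) ?_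
    intro k
    have := hb (shift^[k] ω)
    rw [EReal.coe_le_coe_iff] at this
    linarith

end Pool.Agent.Results.MP_05754a_lc.ComputableMaps
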